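import Pool.Agent.Lib_helper52.YG.Defs

set_option autoImplicit false

namespace Pool.Agent.YG

open MeasureTheory ENNReal Set Filter Topology Pool.Agent.EPS

theorem s2_al_pos {c : ℝ} (h0 : 0 < c) (h1 : c < 1) : 0 < al c :=
  Real.sqrt_pos.2 (div_pos h0 (by linarith))

theorem s2_log_al {c : ℝ} (h0 : 0 < c) (h1 : c < 1) :
    Real.log (al c) = (Real.log c - Real.log (1 - c)) / 2 := by
  have h2 : (0 : ℝ) < 1 - c := by linarith
  rw [al, Real.log_sqrt (div_pos h0 h2).le, Real.log_div h0.ne' h2.ne']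

theorem s2_rpow {x : ℝ} (hx : 0 < x) (a : ℝ) : x ^ a = Real.exp (a * Real.log x) := by
  rw [Real.rpow_def_of_pos hx, mul_comm]

/-- the determinant inequality -/
theorem amgm3 {c1 c2 c3 : ℝ} (h : Wt c1 c2 c3) (t1 t2 t3 : ℝ) (h1 : 0 < t1) (h2 : 0 < t2)
    (h3 : 0 < t3) : ka c1 c2 c3 * (t1 ^ c1 * t2 ^ c2 * t3 ^ c3) ≤
      al c1 * al c2 * t1 * t2 + al c1 * al c3 * t1 * t3 + al c2 * al c3 * t2 * t3 := by
  have p1 : (0 : ℝ) < 1 - c1 := by linarith [h.b1]
  have p2 : (0 : ℝ) < 1 - c2 := by linarith [h.b2]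
  have p3 : (0 : ℝ) < 1 - c3 := by linarith [h.b3]
  have A1 := s2_al_pos h.a1 h.b1
  have A2 := s2_al_pos h.a2 h.b2
  have A3 := s2_al_pos h.a3 h.b3
  have hs : (1 - c3) + (1 - c2) + (1 - c1) = 1 := by linarith [h.sum]
  have q1 : 0 < al c1 * al c2 * t1 * t2 / (1 - c3) := by positivity
  have q2 : 0 < al c1 * al c3 * t1 * t3 / (1 - c2) := by positivity
  have q3 : 0 < al c2 * al c3 * t2 * t3 / (1 - c1) := by positivity
  have key := Real.geom_mean_le_arith_mean3_weighted p3.le p2.le p1.le q1.le q2.le q3.le hs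
  have e1 : (1 - c3) * (al c1 * al c2 * t1 * t2 / (1 - c3)) +
      (1 - c2) * (al c1 * al c3 * t1 * t3 / (1 - c2)) +
      (1 - c1) * (al c2 * al c3 * t2 * t3 / (1 - c1)) =
      al c1 * al c2 * t1 * t2 + al c1 * al c3 * t1 * t3 + al c2 * al c3 * t2 * t3 := by
    rw [mul_div_cancel₀ _ p3.ne', mul_div_cancel₀ _ p2.ne', mul_div_cancel₀ _ p1.ne']
  rw [e1] at key
  refine le_trans (le_of_eq ?_) key
  have l1 : Real.log (al c1 * al c2 * t1 * t2 / (1 - c3)) =
      Real.log (al c1) + Real.log (al c2) + Real.log t1 + Real.log t2 - Real.log (1 - c3) := by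
    rw [Real.log_div (by positivity) p3.ne', Real.log_mul (by positivity) h2.ne',
      Real.log_mul (by positivity) h1.ne', Real.log_mul A1.ne' A2.ne']
  have l2 : Real.log (al c1 * al c3 * t1 * t3 / (1 - c2)) =
      Real.log (al c1) + Real.log (al c3) + Real.log t1 + Real.log t3 - Real.log (1 - c2) := by
    rw [Real.log_div (by positivity) p2.ne', Real.log_mul (by positivity) h3.ne',
      Real.log_mul (by positivity) h1.ne', Real.log_mul A1.ne' A3.ne']
  have l3 : Real.log (al c2 * al c3 * t2 * t3 / (1 - c1)) =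
      Real.log (al c2) + Real.log (al c3) + Real.log t2 + Real.log t3 - Real.log (1 - c1) := by
    rw [Real.log_div (by positivity) p1.ne', Real.log_mul (by positivity) h3.ne',
      Real.log_mul (by positivity) h2.ne', Real.log_mul A2.ne' A3.ne']
  rw [s2_rpow q1, s2_rpow q2, s2_rpow q3, s2_rpow h1, s2_rpow h2, s2_rpow h3, l1, l2, l3,
    s2_log_al h.a1 h.b1, s2_log_al h.a2 h.b2, s2_log_al h.a3 h.b3, ka,
    Real.log_div h.a1.ne' p1.ne', Real.log_div h.a2.ne' p2.ne', Real.log_div h.a3.ne' p3.ne',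
    ← Real.exp_add, ← Real.exp_add, ← Real.exp_add, ← Real.exp_add, ← Real.exp_add]
  congr 1
  simp only [Real.negMulLog]
  have hc : c3 = 2 - c1 - c2 := by linarith [h.sum]
  generalize Real.log (1 - c1) = a1
  generalize Real.log (1 - c2) = a2
  generalize Real.log (1 - c3) = a3
  generalize Real.log c1 = b1
  generalize Real.log c2 = b2
  generalize Real.log c3 = b3
  generalize Real.log t1 = d1
  generalize Real.log t2 = d2
  generalize Real.log t3 = d3
  subst hc
  ring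

/-- the constants fit -/
theorem const_id {c1 c2 c3 : ℝ} (h : Wt c1 c2 c3) : (ka c1 c2 c3)⁻¹ *
    (1 / Real.sqrt ((1 - c1) * (1 - c2) * (1 - c3))) = Kc c1 c2 c3 := by
  have p1 : (0 : ℝ) < 1 - c1 := by linarith [h.b1]
  have p2 : (0 : ℝ) < 1 - c2 := by linarith [h.b2]
  have p3 : (0 : ℝ) < 1 - c3 := by linarith [h.b3]
  have hp : (0 : ℝ) < (1 - c1) * (1 - c2) * (1 - c3) := by positivity
  have e : Real.sqrt ((1 - c1) * (1 - c2) * (1 - c3)) =
      Real.exp ((Real.log (1 - c1) + Real.log (1 - c2) + Real.log (1 - c3)) / 2) := by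
    rw [← Real.exp_log (Real.sqrt_pos.2 hp), Real.log_sqrt hp.le,
      Real.log_mul (by positivity) p3.ne', Real.log_mul p1.ne' p2.ne']
  rw [e, ka, Kc, ← Real.exp_neg, one_div, ← Real.exp_neg, ← Real.exp_add,
    Real.log_div h.a1.ne' p1.ne', Real.log_div h.a2.ne' p2.ne', Real.log_div h.a3.ne' p3.ne']
  congr 1
  simp only [Real.negMulLog]
  ring

end Pool.Agent.YG
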